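import Pool.Agent.R801.GM.Sound

/-!
The core inequality for the polygon norm, in coordinates.
-/

set_option autoImplicit false

namespace Pool.Agent.R801.GM

theorem wf_of_mem {e : Edge} (he : e ∈ edges) :
    0 < (e.c : ℝ) ∧ (e.dx : ℝ) = e.bx - e.ax ∧ (e.dy : ℝ) = e.by' - e.ay ∧
      (e.c : ℝ) = e.ax * e.by' - e.ay * e.bx := by
  have h := List.all_eq_true.1 wf_edges e he
  simp only [wf, Bool.and_eq_true, decide_eq_true_eq] at h
  obtain ⟨⟨⟨h1, h2⟩, h3⟩, h4⟩ := h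
  refine ⟨by exact_mod_cast h1, by exact_mod_cast h2, by exact_mod_cast h3, by exact_mod_cast h4⟩

theorem conv_of_mem {e g : Edge} (he : e ∈ edges) (hg : g ∈ edges) :
    (g.ax : ℝ) * e.dy - g.ay * e.dx ≤ e.c ∧ (g.bx : ℝ) * e.dy - g.by' * e.dx ≤ e.c := by
  have h := List.all_eq_true.1 conv_edges e he
  have h' := List.all_eq_true.1 h g hg
  simp only [Bool.and_eq_true, decide_eq_true_eq] at h'
  refine ⟨by exact_mod_cast h'.1, by exact_mod_cast h'.2⟩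

theorem mem_of_take {e : Edge} {n : ℕ} (he : e ∈ edges.take n) : e ∈ edges :=
  List.mem_of_mem_take he

theorem sector_x (x1 x2 : ℝ)
    (h : 0 < (-9999) * x2 - 169 * x1 ∨
      ((-9999) * x2 - 169 * x1 = 0 ∧ 0 < (-9999) * x2 + 169 * x1)) :
    ∃ e ∈ edges.take 60, 0 < (e.ax : ℝ) * x2 - e.ay * x1 ∧ (e.bx : ℝ) * x2 - e.by' * x1 ≤ 0 := by
  rcases h with h | ⟨h0, h1⟩
  · obtain ⟨e, he, h1, h2⟩ := exists_switch (fun sx sy => 0 < (sx : ℝ) * x2 - sy * x1)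
      _ _ _ _ _ path1 (by push_cast; linarith) (by push_cast; linarith)
    exact ⟨e, he, h1, not_lt.1 h2⟩
  · obtain ⟨e, he, h1, h2⟩ := exists_switch (fun sx sy => 0 < (sx : ℝ) * x2 - sy * x1)
      _ _ _ _ _ path3 (by push_cast; linarith) (by push_cast; linarith)
    exact ⟨e, List.mem_of_mem_drop he, h1, not_lt.1 h2⟩

theorem sector_y (y1 y2 : ℝ) (h : y1 ≠ 0 ∨ y2 ≠ 0) :
    ∃ g ∈ edges, 0 ≤ (g.ax : ℝ) * y2 - g.ay * y1 ∧ (g.bx : ℝ) * y2 - g.by' * y1 < 0 := by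
  rcases lt_trichotomy ((-9999) * y2 - 169 * y1) 0 with h0 | h0 | h0
  · obtain ⟨e, he, h1, h2⟩ := exists_switch (fun sx sy => 0 ≤ (sx : ℝ) * y2 - sy * y1)
      _ _ _ _ _ path2 (by push_cast; linarith) (by push_cast; linarith)
    exact ⟨e, List.mem_of_mem_drop he, h1, not_le.1 h2⟩
  · rcases lt_trichotomy ((-9999) * y2 + 169 * y1) 0 with h1 | h1 | h1
    · have h2 := edge0
      obtain ⟨e, t, het⟩ : ∃ e t, edges = e :: t := ⟨_, _, rfl⟩
      rw [het] at h2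
      simp only [List.take_succ_cons, List.take_zero, List.all_cons, List.all_nil,
        Bool.and_true, Bool.and_eq_true, decide_eq_true_eq] at h2
      obtain ⟨⟨⟨h3, h4⟩, h5⟩, h6⟩ := h2
      refine ⟨e, by rw [het]; exact List.mem_cons_self, ?_, ?_⟩
      · rw [h3, h4]; push_cast; linarith
      · rw [h5, h6]; push_cast; linarith
    · exfalso
      have h2 : y1 = 0 := by linarith
      have h3 : y2 = 0 := by linarith
      rcases h with h | h
      · exact h h2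
      · exact h h3
    · obtain ⟨e, he, h1, h2⟩ := exists_switch (fun sx sy => 0 ≤ (sx : ℝ) * y2 - sy * y1)
        _ _ _ _ _ path4 (by push_cast; linarith) (by push_cast; linarith)
      exact ⟨e, List.mem_of_mem_drop (List.mem_of_mem_take he), h1, not_le.1 h2⟩
  · obtain ⟨e, he, h1, h2⟩ := exists_switch (fun sx sy => 0 ≤ (sx : ℝ) * y2 - sy * y1)
      _ _ _ _ _ path1 (by push_cast; linarith) (by push_cast; linarith)
    exact ⟨e, List.mem_of_mem_take he, h1, not_le.1 h2⟩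

theorem combo {α β γ δ A1 A2 B1 B2 t : ℝ} (hα : 0 ≤ α) (hβ : 0 ≤ β) (hγ : 0 ≤ γ) (hδ : 0 ≤ δ)
    (h1 : α + β = 1) (h2 : γ + δ = 1) (h11 : t ≤ A1 + B1) (h12 : t ≤ A1 + B2)
    (h21 : t ≤ A2 + B1) (h22 : t ≤ A2 + B2) : t ≤ (γ * A1 + δ * A2) + (α * B1 + β * B2) := by
  have e1 : β = 1 - α := by linarith
  have e2 : δ = 1 - γ := by linarith
  have k1 := mul_nonneg (mul_nonneg hα hγ) (sub_nonneg.2 h11)
  have k2 := mul_nonneg (mul_nonneg hβ hγ) (sub_nonneg.2 h12)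
  have k3 := mul_nonneg (mul_nonneg hα hδ) (sub_nonneg.2 h21)
  have k4 := mul_nonneg (mul_nonneg hβ hδ) (sub_nonneg.2 h22)
  subst e1 e2
  nlinarith [k1, k2, k3, k4]

theorem final_pair {e g : Edge} (he : e ∈ edges) (hg : g ∈ edges) (h : PairOK e g)
    {α β γ δ x1 x2 y1 y2 : ℝ} (hα : 0 ≤ α) (hβ : 0 ≤ β) (hγ : 0 ≤ γ) (hδ : 0 ≤ δ)
    (h1 : α + β = 1) (h2 : γ + δ = 1)
    (hx1 : x1 = α * e.ax + β * e.bx) (hx2 : x2 = α * e.ay + β * e.by')
    (hy1 : y1 = γ * g.ax + δ * g.bx) (hy2 : y2 = γ * g.ay + δ * g.by')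
    (hcross : 0 < x1 * y2 - x2 * y1)
    (hxy : ∀ q ∈ edges, (y1 - x1) * q.dy - (y2 - x2) * q.dx ≤ 2467 / 2000 * (q.c : ℝ)) :
    1921911 / 4000000 ≤ (y1 * e.dy - y2 * e.dx) / (e.c : ℝ) +
      (x1 * g.dy - x2 * g.dx) / (g.c : ℝ) := by
  obtain ⟨hec, -, -, -⟩ := wf_of_mem he
  obtain ⟨hgc, -, -, -⟩ := wf_of_mem hg
  rcases h with h | h | ⟨q, hq, h | h⟩
  · simp only [near, Bool.and_eq_true, decide_eq_true_eq] at h
    obtain ⟨⟨⟨n1, n2⟩, n3⟩, n4⟩ := h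
    have m1 : ((1921911 * (e.c * g.c) : ℤ) : ℝ) ≤ _ := Int.cast_le.2 n1
    have m2 : ((1921911 * (e.c * g.c) : ℤ) : ℝ) ≤ _ := Int.cast_le.2 n2
    have m3 : ((1921911 * (e.c * g.c) : ℤ) : ℝ) ≤ _ := Int.cast_le.2 n3
    have m4 : ((1921911 * (e.c * g.c) : ℤ) : ℝ) ≤ _ := Int.cast_le.2 n4
    push_cast at m1 m2 m3 m4
    have key := combo hα hβ hγ hδ h1 h2 m1 m2 m3 m4
    rw [div_add_div _ _ hec.ne' hgc.ne', div_le_div_iff₀ (by norm_num) (by positivity)]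
    subst hx1 hx2 hy1 hy2
    nlinarith [key]
  · exfalso
    simp only [contra, Bool.and_eq_true, decide_eq_true_eq] at h
    obtain ⟨⟨⟨n1, n2⟩, n3⟩, n4⟩ := h
    have m1 : ((e.ax * g.ay : ℤ) : ℝ) ≤ _ := Int.cast_le.2 n1
    have m2 : ((e.ax * g.by' : ℤ) : ℝ) ≤ _ := Int.cast_le.2 n2
    have m3 : ((e.bx * g.ay : ℤ) : ℝ) ≤ _ := Int.cast_le.2 n3
    have m4 : ((e.bx * g.by' : ℤ) : ℝ) ≤ _ := Int.cast_le.2 n4
    push_cast at m1 m2 m3 m4
    subst hx1 hx2 hy1 hy2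
    nlinarith [mul_nonneg (mul_nonneg hα hγ) (sub_nonneg.2 m1),
      mul_nonneg (mul_nonneg hα hδ) (sub_nonneg.2 m2),
      mul_nonneg (mul_nonneg hβ hγ) (sub_nonneg.2 m3),
      mul_nonneg (mul_nonneg hβ hδ) (sub_nonneg.2 m4)]
  · exfalso
    obtain ⟨hqc, -, -, -⟩ := wf_of_mem hq
    simp only [far, Bool.and_eq_true, decide_eq_true_eq] at h
    obtain ⟨⟨⟨n1, n2⟩, n3⟩, n4⟩ := h
    have m1 : ((2467 * q.c : ℤ) : ℝ) < _ := Int.cast_lt.2 n1
    have m2 : ((2467 * q.c : ℤ) : ℝ) < _ := Int.cast_lt.2 n2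
    have m3 : ((2467 * q.c : ℤ) : ℝ) < _ := Int.cast_lt.2 n3
    have m4 : ((2467 * q.c : ℤ) : ℝ) < _ := Int.cast_lt.2 n4
    push_cast at m1 m2 m3 m4
    have hq' := hxy q hq
    have key : (2467 * (q.c : ℝ)) <
        (γ * (2000 * ((g.ax : ℝ) * q.dy - g.ay * q.dx)) +
          δ * (2000 * ((g.bx : ℝ) * q.dy - g.by' * q.dx))) +
        (α * (-(2000 * ((e.ax : ℝ) * q.dy - e.ay * q.dx))) +
          β * (-(2000 * ((e.bx : ℝ) * q.dy - e.by' * q.dx)))) := by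
      by_contra hcon
      push Not at hcon
      have e1 : β = 1 - α := by linarith
      have e2 : δ = 1 - γ := by linarith
      have k1 := mul_nonneg (mul_nonneg hα hγ) (sub_nonneg.2 m1.le)
      have k2 := mul_nonneg (mul_nonneg hβ hγ) (sub_nonneg.2 m2.le)
      have k3 := mul_nonneg (mul_nonneg hα hδ) (sub_nonneg.2 m3.le)
      have k4 := mul_nonneg (mul_nonneg hβ hδ) (sub_nonneg.2 m4.le)
      -- one of the four products is positive
      rcases hα.lt_or_eq with hα' | hα'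
      · rcases hγ.lt_or_eq with hγ' | hγ'
        · have k1' := mul_pos (mul_pos hα' hγ') (sub_pos.2 m1)
          subst e1 e2
          nlinarith [k1', k2, k3, k4]
        · have hδ' : 0 < δ := by linarith
          have k3' := mul_pos (mul_pos hα' hδ') (sub_pos.2 m3)
          subst e1 e2
          nlinarith [k1, k2, k3', k4]
      · have hβ' : 0 < β := by linarith
        rcases hγ.lt_or_eq with hγ' | hγ'
        · have k2' := mul_pos (mul_pos hβ' hγ') (sub_pos.2 m2)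
          subst e1 e2
          nlinarith [k1, k2', k3, k4]
        · have hδ' : 0 < δ := by linarith
          have k4' := mul_pos (mul_pos hβ' hδ') (sub_pos.2 m4)
          subst e1 e2
          nlinarith [k1, k2, k3, k4']
    subst hx1 hx2 hy1 hy2
    nlinarith [key, hq']
  · obtain ⟨hqc, -, -, -⟩ := wf_of_mem hq
    simp only [mid, Bool.and_eq_true, decide_eq_true_eq] at h
    obtain ⟨⟨⟨n1, n2⟩, n3⟩, n4⟩ := h
    have m1 : (((1921911 + 6167500) * (e.c * g.c * q.c) : ℤ) : ℝ) ≤ _ := Int.cast_le.2 n1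
    have m2 : (((1921911 + 6167500) * (e.c * g.c * q.c) : ℤ) : ℝ) ≤ _ := Int.cast_le.2 n2
    have m3 : (((1921911 + 6167500) * (e.c * g.c * q.c) : ℤ) : ℝ) ≤ _ := Int.cast_le.2 n3
    have m4 : (((1921911 + 6167500) * (e.c * g.c * q.c) : ℤ) : ℝ) ≤ _ := Int.cast_le.2 n4
    push_cast at m1 m2 m3 m4
    have key := combo hα hβ hγ hδ h1 h2 m1 m2 m3 m4
    have hq' := mul_le_mul_of_nonneg_left (hxy q hq)
      (show (0 : ℝ) ≤ 5000000 * (e.c * g.c) by positivity)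
    have key2 : (1921911 : ℝ) * (e.c * g.c * q.c) ≤ 4000000 * ((y1 * e.dy - y2 * e.dx) * g.c +
        (x1 * g.dy - x2 * g.dx) * e.c) * q.c := by
      subst hx1 hx2 hy1 hy2
      linarith [key, hq']
    have key3 : (1921911 : ℝ) * (e.c * g.c) ≤ 4000000 * ((y1 * e.dy - y2 * e.dx) * g.c +
        (x1 * g.dy - x2 * g.dx) * e.c) := by
      refine le_of_mul_le_mul_right ?_ hqc
      linarith [key2]
    rw [div_add_div _ _ hec.ne' hgc.ne', div_le_div_iff₀ (by norm_num) (by positivity)]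
    linarith [key3]

end Pool.Agent.R801.GM
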