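import Pool.Agent.R801.GM.Main

/-!
The polygon norm as the norm of a plane in a finite-dimensional `ℓ^∞`.
-/

set_option autoImplicit false

namespace Pool.Agent.R801.GM

/-- Lower bounds for the edge functionals at the vertices. -/
def conv2 : Bool :=
  edges.all fun e => edges.all fun g => decide (-e.c ≤ g.ax * e.dy - g.ay * e.dx) &&
    decide (-e.c ≤ g.bx * e.dy - g.by' * e.dx)

theorem conv2_edges : conv2 = true := by decide +kernel

theorem conv2_of_mem {e g : Edge} (he : e ∈ edges) (hg : g ∈ edges) :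
    -(e.c : ℝ) ≤ g.ax * e.dy - g.ay * e.dx ∧ -(e.c : ℝ) ≤ g.bx * e.dy - g.by' * e.dx := by
  have h := List.all_eq_true.1 conv2_edges e he
  have h' := List.all_eq_true.1 h g hg
  simp only [Bool.and_eq_true, decide_eq_true_eq] at h'
  refine ⟨by exact_mod_cast h'.1, by exact_mod_cast h'.2⟩

theorem core_pos {x1 x2 y1 y2 p p' q q' : ℝ}
    (hPx : p * x1 + p' * x2 = 1) (hQy : q * y1 + q' * y2 = 1)
    (hPv : ∀ e ∈ edges, |p * e.ax + p' * e.ay| ≤ 1 ∧ |p * e.bx + p' * e.by'| ≤ 1)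
    (hQv : ∀ e ∈ edges, |q * e.ax + q' * e.ay| ≤ 1 ∧ |q * e.bx + q' * e.by'| ≤ 1)
    (hx : ∀ e ∈ edges, |x1 * e.dy - x2 * e.dx| ≤ (e.c : ℝ))
    (hy : ∀ e ∈ edges, |y1 * e.dy - y2 * e.dx| ≤ (e.c : ℝ))
    (hxy : ∀ q ∈ edges, |(y1 - x1) * q.dy - (y2 - x2) * q.dx| ≤ 2467 / 2000 * (q.c : ℝ))
    (hcross : 0 < x1 * y2 - x2 * y1) :
    1921911 / 4000000 ≤ (p * y1 + p' * y2) + (q * x1 + q' * x2) := by
  have hx0 : ¬ (x1 = 0 ∧ x2 = 0) := by
    rintro ⟨h1, h2⟩
    rw [h1, h2] at hPx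
    norm_num at hPx
  rcases lt_trichotomy 0 ((-9999) * x2 - 169 * x1) with h | h | h
  · exact core_half hPx hQy
      (fun e he => ⟨(abs_le.1 (hPv e he).1).2, (abs_le.1 (hPv e he).2).2⟩)
      (fun e he => ⟨(abs_le.1 (hQv e he).1).2, (abs_le.1 (hQv e he).2).2⟩)
      (fun e he => (abs_le.1 (hx e he)).2) (fun e he => (abs_le.1 (hy e he)).2)
      (fun e he => (abs_le.1 (hxy e he)).2) hcross (Or.inl h)
  · rcases lt_trichotomy 0 ((-9999) * x2 + 169 * x1) with h' | h' | h'
    · exact core_half hPx hQy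
        (fun e he => ⟨(abs_le.1 (hPv e he).1).2, (abs_le.1 (hPv e he).2).2⟩)
        (fun e he => ⟨(abs_le.1 (hQv e he).1).2, (abs_le.1 (hQv e he).2).2⟩)
        (fun e he => (abs_le.1 (hx e he)).2) (fun e he => (abs_le.1 (hy e he)).2)
        (fun e he => (abs_le.1 (hxy e he)).2) hcross (Or.inr ⟨h.symm, h'⟩)
    · exfalso
      apply hx0
      constructor <;> linarith
    · have := core_half (x1 := -x1) (x2 := -x2) (y1 := -y1) (y2 := -y2) (p := -p) (p' := -p')
        (q := -q) (q' := -q') (by linarith) (by linarith)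
        (fun e he => ⟨by linarith [(abs_le.1 (hPv e he).1).1],
          by linarith [(abs_le.1 (hPv e he).2).1]⟩)
        (fun e he => ⟨by linarith [(abs_le.1 (hQv e he).1).1],
          by linarith [(abs_le.1 (hQv e he).2).1]⟩)
        (fun e he => by linarith [(abs_le.1 (hx e he)).1])
        (fun e he => by linarith [(abs_le.1 (hy e he)).1])
        (fun e he => by linarith [(abs_le.1 (hxy e he)).1])
        (by linarith) (Or.inr ⟨by linarith, by linarith⟩)
      linarith
  · have := core_half (x1 := -x1) (x2 := -x2) (y1 := -y1) (y2 := -y2) (p := -p) (p' := -p')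
      (q := -q) (q' := -q') (by linarith) (by linarith)
      (fun e he => ⟨by linarith [(abs_le.1 (hPv e he).1).1],
        by linarith [(abs_le.1 (hPv e he).2).1]⟩)
      (fun e he => ⟨by linarith [(abs_le.1 (hQv e he).1).1],
        by linarith [(abs_le.1 (hQv e he).2).1]⟩)
      (fun e he => by linarith [(abs_le.1 (hx e he)).1])
      (fun e he => by linarith [(abs_le.1 (hy e he)).1])
      (fun e he => by linarith [(abs_le.1 (hxy e he)).1])
      (by linarith) (Or.inl (by linarith))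
    linarith

theorem core_full {x1 x2 y1 y2 p p' q q' : ℝ}
    (hPx : p * x1 + p' * x2 = 1) (hQy : q * y1 + q' * y2 = 1)
    (hPv : ∀ e ∈ edges, |p * e.ax + p' * e.ay| ≤ 1 ∧ |p * e.bx + p' * e.by'| ≤ 1)
    (hQv : ∀ e ∈ edges, |q * e.ax + q' * e.ay| ≤ 1 ∧ |q * e.bx + q' * e.by'| ≤ 1)
    (hx : ∀ e ∈ edges, |x1 * e.dy - x2 * e.dx| ≤ (e.c : ℝ))
    (hy : ∀ e ∈ edges, |y1 * e.dy - y2 * e.dx| ≤ (e.c : ℝ))
    (hxy : ∀ q ∈ edges, |(y1 - x1) * q.dy - (y2 - x2) * q.dx| ≤ 2467 / 2000 * (q.c : ℝ))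
    (hPy : |p * y1 + p' * y2| ≤ 1) (hQx : |q * x1 + q' * x2| ≤ 1)
    (hPd : |p * (y1 - x1) + p' * (y2 - x2)| ≤ 2467 / 2000) :
    1921911 / 4000000 ≤ (p * y1 + p' * y2) + (q * x1 + q' * x2) := by
  rcases lt_trichotomy 0 (x1 * y2 - x2 * y1) with h | h | h
  · exact core_pos hPx hQy hPv hQv hx hy hxy h
  · have hy1 : y1 = (p * y1 + p' * y2) * x1 := by
      calc y1 = y1 * (p * x1 + p' * x2) := by rw [hPx, mul_one]
        _ = (p * y1 + p' * y2) * x1 - p' * (x1 * y2 - x2 * y1) := by ring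
        _ = _ := by rw [← h]; ring
    have hy2 : y2 = (p * y1 + p' * y2) * x2 := by
      calc y2 = y2 * (p * x1 + p' * x2) := by rw [hPx, mul_one]
        _ = (p * y1 + p' * y2) * x2 + p * (x1 * y2 - x2 * y1) := by ring
        _ = _ := by rw [← h]; ring
    obtain ⟨t, ht⟩ : ∃ t, t = p * y1 + p' * y2 := ⟨_, rfl⟩
    obtain ⟨s, hs⟩ : ∃ s, s = q * x1 + q' * x2 := ⟨_, rfl⟩
    have hts : t * s = 1 := by
      rw [← hQy]
      rw [← ht] at hy1 hy2
      calc t * s = q * (t * x1) + q' * (t * x2) := by rw [hs]; ring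
        _ = _ := by rw [← hy1, ← hy2]
    have h1 : p * (y1 - x1) + p' * (y2 - x2) = t - 1 := by
      rw [ht, ← hPx]; ring
    rw [h1] at hPd
    rw [← ht] at hPy
    rw [← hs] at hQx
    rw [← ht, ← hs]
    have h2 := (abs_le.1 hPd).1
    have h3 := (abs_le.1 hPy).2
    have h4 := abs_le.1 hQx
    have h5 : 0 < t := by
      rcases lt_trichotomy 0 t with h5 | h5 | h5
      · exact h5
      · rw [← h5] at hts; norm_num at hts
      · exfalso
        have h6 : t * s ≤ 467 / 2000 := by nlinarith [h4.1, h4.2]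
        rw [hts] at h6
        norm_num at h6
    have h6 : 0 < s := by
      by_contra hcon
      push Not at hcon
      nlinarith
    nlinarith [sq_nonneg (t - s)]
  · have := core_pos (x1 := y1) (x2 := y2) (y1 := x1) (y2 := x2) hQy hPx hQv hPv hy hx
      (fun q hq => by
        have := hxy q hq
        rw [← abs_neg]
        have e : -((x1 - y1) * (q.dy : ℝ) - (x2 - y2) * q.dx) =
          (y1 - x1) * q.dy - (y2 - x2) * q.dx := by ring
        rw [e]
        exact this) (by linarith)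
    linarith

/-- The linear map of edge functionals. -/
noncomputable def L : (ℝ × ℝ) →ₗ[ℝ] (Fin edges.length → ℝ) where
  toFun z := fun k => (z.1 * (edges.get k).dy - z.2 * (edges.get k).dx) / (edges.get k).c
  map_add' z w := by
    funext k
    simp only [Prod.fst_add, Prod.snd_add, Pi.add_apply]
    ring
  map_smul' r z := by
    funext k
    simp only [Prod.smul_fst, Prod.smul_snd, smul_eq_mul, Pi.smul_apply, RingHom.id_apply]
    ring

theorem L_apply (z : ℝ × ℝ) (k : Fin edges.length) :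
    L z k = (z.1 * (edges.get k).dy - z.2 * (edges.get k).dx) / (edges.get k).c := rfl

theorem abs_le_norm (z : ℝ × ℝ) {e : Edge} (he : e ∈ edges) :
    |z.1 * e.dy - z.2 * e.dx| ≤ ‖L z‖ * (e.c : ℝ) := by
  obtain ⟨k, rfl⟩ := List.get_of_mem he
  have h1 := norm_le_pi_norm (L z) k
  obtain ⟨hc, -⟩ := wf_of_mem he
  rw [L_apply, Real.norm_eq_abs, abs_div, abs_of_pos hc, div_le_iff₀ hc] at h1
  exact h1

theorem norm_le_one {a b : ℝ} (h : ∀ e ∈ edges, |a * e.dy - b * e.dx| ≤ (e.c : ℝ)) :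
    ‖L (a, b)‖ ≤ 1 := by
  rw [pi_norm_le_iff_of_nonneg zero_le_one]
  intro k
  obtain ⟨hc, -⟩ := wf_of_mem (List.get_mem edges k)
  rw [L_apply, Real.norm_eq_abs, abs_div, abs_of_pos hc, div_le_one hc]
  exact h _ (List.get_mem edges k)

theorem norm_vertex {g : Edge} (hg : g ∈ edges) :
    ‖L ((g.ax : ℝ), (g.ay : ℝ))‖ ≤ 1 ∧ ‖L ((g.bx : ℝ), (g.by' : ℝ))‖ ≤ 1 := by
  constructor
  · apply norm_le_one
    intro e he
    exact abs_le.2 ⟨(conv2_of_mem he hg).1, (conv_of_mem he hg).1⟩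
  · apply norm_le_one
    intro e he
    exact abs_le.2 ⟨(conv2_of_mem he hg).2, (conv_of_mem he hg).2⟩

theorem L_injective : Function.Injective L := by
  rw [← LinearMap.ker_eq_bot, LinearMap.ker_eq_bot']
  intro z hz
  have h : ∀ e ∈ edges, z.1 * e.dy - z.2 * e.dx = 0 := by
    intro e he
    have := abs_le_norm z he
    rw [hz, norm_zero, zero_mul] at this
    exact abs_nonpos_iff.1 this
  obtain ⟨e, f, t, het, h1, h2, h3, h4⟩ : ∃ e f t, edges = e :: f :: t ∧ e.dx = 0 ∧ e.dy = -338 ∧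
      f.dx = 38 ∧ f.dy = -365 := ⟨_, _, _, rfl, rfl, rfl, rfl, rfl⟩
  have k1 := h e (by rw [het]; exact List.mem_cons_self)
  have k2 := h f (by rw [het]; exact List.mem_cons_of_mem _ List.mem_cons_self)
  rw [h1, h2] at k1
  rw [h3, h4] at k2
  push_cast at k1 k2
  have k3 : z.1 = 0 := by linarith
  have k4 : z.2 = 0 := by
    rw [k3] at k2
    linarith
  exact Prod.ext k3 k4

/-- The plane. -/
noncomputable def X : Submodule ℝ (Fin edges.length → ℝ) := LinearMap.range L

theorem finrank_X : Module.finrank ℝ X = 2 := by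
  have h := LinearMap.finrank_range_of_inj L_injective
  rw [Module.finrank_prod, Module.finrank_self] at h
  exact h

/-- The parametrization of the plane. -/
noncomputable def toX : (ℝ × ℝ) →ₗ[ℝ] X := L.rangeRestrict

theorem toX_surj : Function.Surjective toX := LinearMap.surjective_rangeRestrict L

theorem norm_toX (z : ℝ × ℝ) : ‖toX z‖ = ‖L z‖ := rfl

theorem functional_apply (P : X →L[ℝ] ℝ) (a b : ℝ) :
    P (toX (a, b)) = P (toX (1, 0)) * a + P (toX (0, 1)) * b := by
  have h : ((a, b) : ℝ × ℝ) = a • ((1, 0) : ℝ × ℝ) + b • ((0, 1) : ℝ × ℝ) := by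
    ext <;> simp
  rw [h, map_add, map_smul, map_smul, map_add, map_smul, map_smul, smul_eq_mul, smul_eq_mul]
  ring

theorem functional_le (P : X →L[ℝ] ℝ) (hP : ‖P‖ = 1) (z : ℝ × ℝ) :
    |P (toX z)| ≤ ‖L z‖ := by
  have h := P.le_opNorm (toX z)
  rw [hP, one_mul, norm_toX, Real.norm_eq_abs] at h
  exact h

theorem main_bound (x y : X) (hx : ‖x‖ = 1) (hy : ‖y‖ = 1) (hxy : ‖x - y‖ = 2467 / 2000)
    (P Q : X →L[ℝ] ℝ) (hP : ‖P‖ = 1) (hQ : ‖Q‖ = 1) (hPx : P x = 1) (hQy : Q y = 1) :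
    (P - Q) (x - y) ≤ (2467 / 2000 : ℝ) ^ 2 - 1 / 500 := by
  obtain ⟨⟨x1, x2⟩, rfl⟩ := toX_surj x
  obtain ⟨⟨y1, y2⟩, rfl⟩ := toX_surj y
  have hsub : toX (x1, x2) - toX (y1, y2) = toX (x1 - y1, x2 - y2) := by
    rw [← map_sub]; rfl
  have hsub' : ‖L (y1 - x1, y2 - x2)‖ = 2467 / 2000 := by
    rw [← norm_toX, ← hxy, hsub]
    have : ((y1 - x1, y2 - x2) : ℝ × ℝ) = -(x1 - y1, x2 - y2) := by
      ext <;> simp
    rw [this, map_neg, norm_neg]
  have hPv : ∀ e ∈ edges, |P (toX (1, 0)) * e.ax + P (toX (0, 1)) * e.ay| ≤ 1 ∧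
      |P (toX (1, 0)) * e.bx + P (toX (0, 1)) * e.by'| ≤ 1 := by
    intro e he
    constructor
    · rw [← functional_apply]
      exact (functional_le P hP _).trans (norm_vertex he).1
    · rw [← functional_apply]
      exact (functional_le P hP _).trans (norm_vertex he).2
  have hQv : ∀ e ∈ edges, |Q (toX (1, 0)) * e.ax + Q (toX (0, 1)) * e.ay| ≤ 1 ∧
      |Q (toX (1, 0)) * e.bx + Q (toX (0, 1)) * e.by'| ≤ 1 := by
    intro e he
    constructor
    · rw [← functional_apply]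
      exact (functional_le Q hQ _).trans (norm_vertex he).1
    · rw [← functional_apply]
      exact (functional_le Q hQ _).trans (norm_vertex he).2
  rw [norm_toX] at hx hy
  have key := core_full (x1 := x1) (x2 := x2) (y1 := y1) (y2 := y2)
    (p := P (toX (1, 0))) (p' := P (toX (0, 1))) (q := Q (toX (1, 0))) (q' := Q (toX (0, 1)))
    (by rw [← functional_apply]; exact hPx) (by rw [← functional_apply]; exact hQy)
    hPv hQv
    (fun e he => by have := abs_le_norm (x1, x2) he; rwa [hx, one_mul] at this)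
    (fun e he => by have := abs_le_norm (y1, y2) he; rwa [hy, one_mul] at this)
    (fun e he => by have := abs_le_norm (y1 - x1, y2 - x2) he; rwa [hsub'] at this)
    (by rw [← functional_apply]; exact (functional_le P hP _).trans hy.le)
    (by rw [← functional_apply]; exact (functional_le Q hQ _).trans hx.le)
    (by rw [← functional_apply]; exact (functional_le P hP _).trans hsub'.le)
  rw [← functional_apply, ← functional_apply] at key
  rw [_root_.sub_apply, map_sub, map_sub, hPx, hQy]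
  norm_num at key ⊢
  linarith

end Pool.Agent.R801.GM
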