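import Pool.Agent.R801.GM.Core

/-!
The core inequality for norming functionals of the polygon norm.
-/

set_option autoImplicit false

namespace Pool.Agent.R801.GM

theorem core_half {x1 x2 y1 y2 p p' q q' : ℝ}
    (hPx : p * x1 + p' * x2 = 1) (hQy : q * y1 + q' * y2 = 1)
    (hPv : ∀ e ∈ edges, p * e.ax + p' * e.ay ≤ 1 ∧ p * e.bx + p' * e.by' ≤ 1)
    (hQv : ∀ e ∈ edges, q * e.ax + q' * e.ay ≤ 1 ∧ q * e.bx + q' * e.by' ≤ 1)
    (hx : ∀ e ∈ edges, x1 * e.dy - x2 * e.dx ≤ (e.c : ℝ))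
    (hy : ∀ e ∈ edges, y1 * e.dy - y2 * e.dx ≤ (e.c : ℝ))
    (hxy : ∀ q ∈ edges, (y1 - x1) * q.dy - (y2 - x2) * q.dx ≤ 2467 / 2000 * (q.c : ℝ))
    (hcross : 0 < x1 * y2 - x2 * y1)
    (hH : 0 < (-9999) * x2 - 169 * x1 ∨
      ((-9999) * x2 - 169 * x1 = 0 ∧ 0 < (-9999) * x2 + 169 * x1)) :
    1921911 / 4000000 ≤ (p * y1 + p' * y2) + (q * x1 + q' * x2) := by
  obtain ⟨e, he', ha, hb⟩ := sector_x x1 x2 hH
  have he : e ∈ edges := List.mem_of_mem_take he'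
  have hy0 : y1 ≠ 0 ∨ y2 ≠ 0 := by
    by_contra hcon
    push Not at hcon
    rw [hcon.1, hcon.2] at hQy
    norm_num at hQy
  obtain ⟨g, hg, hc, hd⟩ := sector_y y1 y2 hy0
  have hpair := pairOK_edges e he' g hg
  obtain ⟨hec, hedx, hedy, hecc⟩ := wf_of_mem he
  obtain ⟨hgc, hgdx, hgdy, hgcc⟩ := wf_of_mem hg
  obtain ⟨hPa, hPb⟩ := hPv e he
  obtain ⟨hQc, hQd⟩ := hQv g hg
  have hxe := hx e he
  have hyg := hy g hg
  -- coordinates of x
  obtain ⟨α, hαd⟩ : ∃ α, α = (x1 * e.by' - x2 * e.bx) / (e.c : ℝ) := ⟨_, rfl⟩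
  obtain ⟨β, hβd⟩ : ∃ β, β = (e.ax * x2 - e.ay * x1) / (e.c : ℝ) := ⟨_, rfl⟩
  have hα : 0 ≤ α := by rw [hαd]; exact div_nonneg (by linarith) hec.le
  have hβ : 0 < β := by rw [hβd]; exact div_pos (by linarith) hec
  have hαc : α * e.c = x1 * e.by' - x2 * e.bx := by
    rw [hαd]; exact div_mul_cancel₀ _ hec.ne'
  have hβc : β * e.c = e.ax * x2 - e.ay * x1 := by
    rw [hβd]; exact div_mul_cancel₀ _ hec.ne'
  have hx1 : x1 = α * e.ax + β * e.bx := by
    apply mul_right_cancel₀ hec.ne'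
    calc x1 * e.c = x1 * (e.ax * e.by' - e.ay * e.bx) := by rw [hecc]
      _ = (x1 * e.by' - x2 * e.bx) * e.ax + (e.ax * x2 - e.ay * x1) * e.bx := by ring
      _ = (α * e.c) * e.ax + (β * e.c) * e.bx := by rw [hαc, hβc]
      _ = (α * e.ax + β * e.bx) * e.c := by ring
  have hx2 : x2 = α * e.ay + β * e.by' := by
    apply mul_right_cancel₀ hec.ne'
    calc x2 * e.c = x2 * (e.ax * e.by' - e.ay * e.bx) := by rw [hecc]
      _ = (x1 * e.by' - x2 * e.bx) * e.ay + (e.ax * x2 - e.ay * x1) * e.by' := by ring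
      _ = (α * e.c) * e.ay + (β * e.c) * e.by' := by rw [hαc, hβc]
      _ = (α * e.ay + β * e.by') * e.c := by ring
  have hαβ : α + β = 1 := by
    apply le_antisymm
    · have h1 : (α + β) * e.c ≤ 1 * e.c := by
        have h2 : x1 * e.dy - x2 * e.dx = (α + β) * e.c := by
          rw [add_mul, hαc, hβc, hedy, hedx]; ring
        linarith
      exact le_of_mul_le_mul_right h1 hec
    · have h1 : α * (p * e.ax + p' * e.ay) + β * (p * e.bx + p' * e.by') = 1 := by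
        rw [← hPx, hx1, hx2]; ring
      have h2 := mul_le_mul_of_nonneg_left hPa hα
      have h3 := mul_le_mul_of_nonneg_left hPb hβ.le
      linarith
  -- coordinates of y
  obtain ⟨γ, hγd⟩ : ∃ γ, γ = (y1 * g.by' - y2 * g.bx) / (g.c : ℝ) := ⟨_, rfl⟩
  obtain ⟨δ, hδd⟩ : ∃ δ, δ = (g.ax * y2 - g.ay * y1) / (g.c : ℝ) := ⟨_, rfl⟩
  have hγ : 0 < γ := by rw [hγd]; exact div_pos (by linarith) hgc
  have hδ : 0 ≤ δ := by rw [hδd]; exact div_nonneg (by linarith) hgc.le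
  have hγc : γ * g.c = y1 * g.by' - y2 * g.bx := by
    rw [hγd]; exact div_mul_cancel₀ _ hgc.ne'
  have hδc : δ * g.c = g.ax * y2 - g.ay * y1 := by
    rw [hδd]; exact div_mul_cancel₀ _ hgc.ne'
  have hy1 : y1 = γ * g.ax + δ * g.bx := by
    apply mul_right_cancel₀ hgc.ne'
    calc y1 * g.c = y1 * (g.ax * g.by' - g.ay * g.bx) := by rw [hgcc]
      _ = (y1 * g.by' - y2 * g.bx) * g.ax + (g.ax * y2 - g.ay * y1) * g.bx := by ring
      _ = (γ * g.c) * g.ax + (δ * g.c) * g.bx := by rw [hγc, hδc]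
      _ = (γ * g.ax + δ * g.bx) * g.c := by ring
  have hy2 : y2 = γ * g.ay + δ * g.by' := by
    apply mul_right_cancel₀ hgc.ne'
    calc y2 * g.c = y2 * (g.ax * g.by' - g.ay * g.bx) := by rw [hgcc]
      _ = (y1 * g.by' - y2 * g.bx) * g.ay + (g.ax * y2 - g.ay * y1) * g.by' := by ring
      _ = (γ * g.c) * g.ay + (δ * g.c) * g.by' := by rw [hγc, hδc]
      _ = (γ * g.ay + δ * g.by') * g.c := by ring
  have hγδ : γ + δ = 1 := by
    apply le_antisymm
    · have h1 : (γ + δ) * g.c ≤ 1 * g.c := by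
        have h2 : y1 * g.dy - y2 * g.dx = (γ + δ) * g.c := by
          rw [add_mul, hγc, hδc, hgdy, hgdx]; ring
        linarith
      exact le_of_mul_le_mul_right h1 hgc
    · have h1 : γ * (q * g.ax + q' * g.ay) + δ * (q * g.bx + q' * g.by') = 1 := by
        rw [← hQy, hy1, hy2]; ring
      have h2 := mul_le_mul_of_nonneg_left hQc hγ.le
      have h3 := mul_le_mul_of_nonneg_left hQd hδ
      linarith
  have hfin := final_pair he hg hpair hα hβ.le hγ.le hδ hαβ hγδ hx1 hx2 hy1 hy2 hcross hxy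
  -- lower bound for `P y`
  have hPy : (y1 * e.dy - y2 * e.dx) / (e.c : ℝ) ≤ p * y1 + p' * y2 := by
    rw [div_le_iff₀ hec]
    -- multiply by cross(a, x) > 0
    have hax : 0 < (e.ax : ℝ) * x2 - e.ay * x1 := ha
    refine le_of_mul_le_mul_right ?_ hax
    have hfx : x1 * e.dy - x2 * e.dx = e.c := by
      have h2 : x1 * e.dy - x2 * e.dx = (α + β) * e.c := by
        rw [add_mul, hαc, hβc, hedy, hedx]; ring
      rw [h2, hαβ, one_mul]
    have hfa : (e.ax : ℝ) * e.dy - e.ay * e.dx = e.c := by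
      rw [hedy, hedx, hecc]; ring
    have i1 : (y1 * e.dy - y2 * e.dx) * ((e.ax : ℝ) * x2 - e.ay * x1) =
        ((e.ax : ℝ) * y2 - e.ay * y1) * e.c - (x1 * y2 - x2 * y1) * e.c := by
      calc (y1 * e.dy - y2 * e.dx) * ((e.ax : ℝ) * x2 - e.ay * x1) =
          ((e.ax : ℝ) * y2 - e.ay * y1) * (x1 * e.dy - x2 * e.dx) -
            (x1 * y2 - x2 * y1) * ((e.ax : ℝ) * e.dy - e.ay * e.dx) := by ring
        _ = _ := by rw [hfx, hfa]
    have i2 : (p * y1 + p' * y2) * ((e.ax : ℝ) * x2 - e.ay * x1) =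
        ((e.ax : ℝ) * y2 - e.ay * y1) - (x1 * y2 - x2 * y1) * (p * e.ax + p' * e.ay) := by
      calc (p * y1 + p' * y2) * ((e.ax : ℝ) * x2 - e.ay * x1) =
          ((e.ax : ℝ) * y2 - e.ay * y1) * (p * x1 + p' * x2) -
            (x1 * y2 - x2 * y1) * (p * e.ax + p' * e.ay) := by ring
        _ = _ := by rw [hPx, mul_one]
    have i3 : (p * y1 + p' * y2) * (e.c : ℝ) * ((e.ax : ℝ) * x2 - e.ay * x1) =
        (((e.ax : ℝ) * y2 - e.ay * y1) -
          (x1 * y2 - x2 * y1) * (p * e.ax + p' * e.ay)) * e.c := by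
      rw [← i2]; ring
    rw [i1, i3]
    have h4 : 0 ≤ (x1 * y2 - x2 * y1) * (1 - (p * e.ax + p' * e.ay)) * e.c :=
      mul_nonneg (mul_nonneg hcross.le (by linarith)) hec.le
    linarith
  -- lower bound for `Q x`
  have hQx : (x1 * g.dy - x2 * g.dx) / (g.c : ℝ) ≤ q * x1 + q' * x2 := by
    rw [div_le_iff₀ hgc]
    have hdx : 0 < y1 * (g.by' : ℝ) - y2 * g.bx := by linarith
    refine le_of_mul_le_mul_right ?_ hdx
    have hfy : y1 * g.dy - y2 * g.dx = g.c := by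
      have h2 : y1 * g.dy - y2 * g.dx = (γ + δ) * g.c := by
        rw [add_mul, hγc, hδc, hgdy, hgdx]; ring
      rw [h2, hγδ, one_mul]
    have hfd : (g.bx : ℝ) * g.dy - g.by' * g.dx = g.c := by
      rw [hgdy, hgdx, hgcc]; ring
    have i1 : (x1 * g.dy - x2 * g.dx) * (y1 * (g.by' : ℝ) - y2 * g.bx) =
        (x1 * (g.by' : ℝ) - x2 * g.bx) * g.c - (x1 * y2 - x2 * y1) * g.c := by
      calc (x1 * g.dy - x2 * g.dx) * (y1 * (g.by' : ℝ) - y2 * g.bx) =
          (x1 * (g.by' : ℝ) - x2 * g.bx) * (y1 * g.dy - y2 * g.dx) -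
            (x1 * y2 - x2 * y1) * ((g.bx : ℝ) * g.dy - g.by' * g.dx) := by ring
        _ = _ := by rw [hfy, hfd]
    have i2 : (q * x1 + q' * x2) * (y1 * (g.by' : ℝ) - y2 * g.bx) =
        (x1 * (g.by' : ℝ) - x2 * g.bx) - (x1 * y2 - x2 * y1) * (q * g.bx + q' * g.by') := by
      calc (q * x1 + q' * x2) * (y1 * (g.by' : ℝ) - y2 * g.bx) =
          (x1 * (g.by' : ℝ) - x2 * g.bx) * (q * y1 + q' * y2) -
            (x1 * y2 - x2 * y1) * (q * g.bx + q' * g.by') := by ring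
        _ = _ := by rw [hQy, mul_one]
    have i3 : (q * x1 + q' * x2) * (g.c : ℝ) * (y1 * (g.by' : ℝ) - y2 * g.bx) =
        ((x1 * (g.by' : ℝ) - x2 * g.bx) -
          (x1 * y2 - x2 * y1) * (q * g.bx + q' * g.by')) * g.c := by
      rw [← i2]; ring
    rw [i1, i3]
    have h4 : 0 ≤ (x1 * y2 - x2 * y1) * (1 - (q * g.bx + q' * g.by')) * g.c :=
      mul_nonneg (mul_nonneg hcross.le (by linarith)) hgc.le
    linarith
  linarith

end Pool.Agent.R801.GM
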