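import Pool.Agent.R801.GM.Cert

/-!
Soundness of the polygon certificate.
-/

set_option autoImplicit false

namespace Pool.Agent.R801.GM

/-! ### Reading the certificate -/

/-- The conclusion of the certificate for a pair of edges. -/
def PairOK (e g : Edge) : Prop :=
  near e g = true ∨ contra e g = true ∨ ∃ q ∈ edges, far e g q = true ∨ mid e g q = true

theorem pairOK_of_step {e g : Edge} {k : ℕ} (h : step e g k = true) : PairOK e g := by
  unfold step at h
  split_ifs at h with h1 h2
  · exact Or.inl h
  · exact Or.inr (Or.inl h)
  · revert h
    cases hq : edges[k]? with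
    | none => intro h; simp at h
    | some q =>
      intro h
      refine Or.inr (Or.inr ⟨q, List.mem_of_getElem? hq, ?_⟩)
      simpa using h

theorem pairOK_of_row {e : Edge} : ∀ (l : List Edge) (N : ℕ), rowOK e l N = true →
    ∀ g ∈ l, PairOK e g := by
  intro l
  induction l with
  | nil => intro N _ g hg; simp at hg
  | cons a t ih =>
    intro N h g hg
    simp only [rowOK, Bool.and_eq_true] at h
    rcases List.mem_cons.1 hg with rfl | hg
    · exact pairOK_of_step h.1
    · exact ih _ h.2 g hg

theorem pairOK_of_all : ∀ (l : List Edge) (s : List ℕ), allOK l s = true →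
    ∀ e ∈ l.take s.length, ∀ g ∈ edges, PairOK e g := by
  intro l s
  induction s generalizing l with
  | nil => intro _ e he; simp at he
  | cons N s ih =>
    cases l with
    | nil => intro h; simp [allOK] at h
    | cons a t =>
      intro h e he g hg
      simp only [allOK, Bool.and_eq_true] at h
      rw [List.length_cons, List.take_succ_cons, List.mem_cons] at he
      rcases he with rfl | he
      · exact pairOK_of_row _ _ h.1 g hg
      · exact ih t h.2 e he g hg

theorem rows_length : rows.length = 60 := by decide +kernel

theorem pairOK_edges : ∀ e ∈ edges.take 60, ∀ g ∈ edges, PairOK e g := by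
  have h := pairOK_of_all edges rows allOK_edges
  rw [rows_length] at h
  exact h

/-! ### Well-formedness -/

/-- Well-formedness of the data of one edge. -/
def wf (e : Edge) : Bool :=
  decide (0 < e.c) && decide (e.dx = e.bx - e.ax) && decide (e.dy = e.by' - e.ay) &&
    decide (e.c = e.ax * e.by' - e.ay * e.bx)

/-- Convexity of the polygon. -/
def conv : Bool :=
  edges.all fun e => edges.all fun g => decide (g.ax * e.dy - g.ay * e.dx ≤ e.c) &&
    decide (g.bx * e.dy - g.by' * e.dx ≤ e.c)

theorem wf_edges : edges.all wf = true := by decide +kernel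

theorem conv_edges : conv = true := by decide +kernel

/-- A path of edges. -/
def path : ℤ → ℤ → List Edge → ℤ → ℤ → Bool
  | sx, sy, [], tx, ty => decide (sx = tx) && decide (sy = ty)
  | sx, sy, e :: l, tx, ty =>
    decide (e.ax = sx) && decide (e.ay = sy) && path e.bx e.by' l tx ty

theorem exists_switch (good : ℤ → ℤ → Prop) : ∀ (l : List Edge) (sx sy tx ty : ℤ),
    path sx sy l tx ty = true → good sx sy → ¬ good tx ty →
    ∃ e ∈ l, good e.ax e.ay ∧ ¬ good e.bx e.by' := by
  intro l
  induction l with
  | nil =>
    intro sx sy tx ty h h1 h2
    simp only [path, Bool.and_eq_true, decide_eq_true_eq] at h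
    rw [h.1, h.2] at h1
    exact absurd h1 h2
  | cons e l ih =>
    intro sx sy tx ty h h1 h2
    simp only [path, Bool.and_eq_true, decide_eq_true_eq] at h
    obtain ⟨⟨ha, hb⟩, hp⟩ := h
    by_cases hg : good e.bx e.by'
    · obtain ⟨e', he', h3⟩ := ih _ _ _ _ hp hg h2
      exact ⟨e', List.mem_cons_of_mem _ he', h3⟩
    · refine ⟨e, List.mem_cons_self, ?_, hg⟩
      rw [ha, hb]
      exact h1

theorem path1 : path (-9999) 169 (edges.take 60) 9999 (-169) = true := by decide +kernel

theorem path2 : path 9999 (-169) (edges.drop 60) (-9999) 169 = true := by decide +kernel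

theorem path3 : path (-9999) (-169) ((edges.take 60).drop 1) 9999 (-169) = true := by
  decide +kernel

theorem path4 : path (-9999) (-169) ((edges.drop 1).take 60) 9999 169 = true := by
  decide +kernel

theorem edge0 : (edges.take 1).all (fun e => decide (e.ax = -9999) && decide (e.ay = 169) &&
    decide (e.bx = -9999) && decide (e.by' = -169)) = true := by decide +kernel

end Pool.Agent.R801.GM
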